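import Pool.Agent.Helper41.JT.Defs
import Pool.Agent.Helper79.GQ.LH

/-!
# JT (MP_13b103_pr), block S: the slice of `A_f` has no `K + 1` points with gaps `> ε`
-/

set_option autoImplicit false

namespace Pool.Agent.Helper82.JT

open Pool.Agent.Helper79.GR Pool.Agent.Helper41.JT

variable {d : ℕ}

theorem cost_nonneg_of {c : Edge d → ℝ} (hp : ∀ e, 0 < c e) (x : V d) (w : List (St d)) :
    0 ≤ cost c x w := by
  induction w generalizing x with
  | nil => exact le_rfl
  | cons s w ih => exact add_nonneg (hp _).le (ih _)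

theorem T_le_of {c : Edge d → ℝ} (hp : ∀ e, 0 < c e) {x y : V d} {w : List (St d)}
    (hw : pos x w = y) : T c x y ≤ cost c x w :=
  ciInf_le ⟨0, by rintro _ ⟨w, rfl⟩; exact cost_nonneg_of hp x w.1⟩
    (⟨w, hw⟩ : {w : List (St d) // pos x w = y})

theorem min_of {c : Edge d → ℝ} (hc : Ok c) (x y : V d) :
    ∃ w, pos x w = y ∧ cost c x w = T c x y := by
  obtain ⟨w₀, hw₀, -⟩ := exists_walk x y
  have hfin : ({w : List (St d) | cost c x w ≤ cost c x w₀} ∩ {w | pos x w = y}).Finite :=
    (hc.fin x (cost c x w₀)).inter_of_left _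
  obtain ⟨w, hw, hmin⟩ := Set.exists_min_image _ (cost c x) hfin
    ⟨w₀, show cost c x w₀ ≤ cost c x w₀ from le_rfl, hw₀⟩
  refine ⟨w, hw.2, le_antisymm ?_ (T_le_of hc.ps hw.2)⟩
  have : Nonempty {w : List (St d) // pos x w = y} := ⟨⟨w₀, hw₀⟩⟩
  refine le_ciInf fun w' => ?_
  by_cases h : cost c x w'.1 ≤ cost c x w₀
  · exact hmin _ ⟨h, w'.2⟩
  · exact (show cost c x w ≤ cost c x w₀ from hw.1).trans (not_le.1 h).le

theorem tri {c : Edge d → ℝ} (hc : Ok c) (x y z : V d) : T c x z ≤ T c x y + T c y z := by
  obtain ⟨w, hw, h⟩ := min_of hc x y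
  obtain ⟨w', hw', h'⟩ := min_of hc y z
  have h1 : pos x (w ++ w') = z := by rw [pos_append, hw, hw']
  have h2 := T_le_of hc.ps h1
  rw [cost_append, hw, h, h'] at h2
  exact h2

theorem T_nn {c : Edge d → ℝ} (hc : Ok c) (x y : V d) : 0 ≤ T c x y := by
  obtain ⟨w, -, h⟩ := min_of hc x y
  rw [← h]
  exact cost_nonneg_of hc.ps x w

theorem T_self_le {c : Edge d → ℝ} (hc : Ok c) (x : V d) : T c x x ≤ 0 :=
  T_le_of hc.ps (w := []) rfl

theorem T_ed {c : Edge d → ℝ} (hc : Ok c) (v : V d) (s : St d) :
    T c v (v + sv s) ≤ c (ed v s) := by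
  have h := T_le_of hc.ps (x := v) (y := v + sv s) (w := [s]) rfl
  refine h.trans (le_of_eq ?_)
  show c (ed v s) + 0 = _
  rw [add_zero]

theorem T_mono {c c' : Edge d → ℝ} (hc : Ok c) (hp : ∀ e, 0 < c' e) (h : ∀ e, c' e ≤ c e)
    (x y : V d) : T c' x y ≤ T c x y := by
  obtain ⟨w, hw, h1⟩ := min_of hc x y
  rw [← h1]
  refine (T_le_of hp hw).trans ?_
  clear hw h1
  induction w generalizing x with
  | nil => exact le_rfl
  | cons s w ih => exact add_le_add (h _) (ih _)

theorem pot {c : Edge d → ℝ} (hc : Ok c) (φ : V d → ℝ)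
    (h : ∀ v s, φ (v + sv s) ≤ φ v + c (ed v s)) (x y : V d) : φ y ≤ φ x + T c x y := by
  obtain ⟨w, hw, h1⟩ := min_of hc x y
  rw [← h1, ← hw]
  clear hw h1
  induction w generalizing x with
  | nil =>
    show φ x ≤ φ x + 0
    rw [add_zero]
  | cons s w ih =>
    show φ (pos (x + sv s) w) ≤ φ x + (c (ed x s) + cost c (x + sv s) w)
    have h1 := ih (x + sv s)
    have h2 := h x s
    linarith

theorem ok_update {c : Edge d → ℝ} (hc : Ok c) (e : Edge d) {τ : ℝ} (hτ : 0 < τ) :
    Ok (Function.update c e τ) where
  ps := by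
    intro f
    by_cases hf : f = e
    · rw [hf, Function.update_self]
      exact hτ
    · rw [Function.update_of_ne hf]
      exact hc.ps f
  fin := by
    intro x R
    have hM : ∀ f, c f ≤ max 1 (c e / τ) * Function.update c e τ f := by
      intro f
      by_cases hf : f = e
      · rw [hf, Function.update_self]
        have h1 : c e = c e / τ * τ := by field_simp
        calc c e = c e / τ * τ := h1
          _ ≤ max 1 (c e / τ) * τ := mul_le_mul_of_nonneg_right (le_max_right _ _) hτ.le
      · rw [Function.update_of_ne hf]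
        calc c f = 1 * c f := (one_mul _).symm
          _ ≤ max 1 (c e / τ) * c f := mul_le_mul_of_nonneg_right (le_max_left _ _) (hc.ps f).le
    have hcost : ∀ (w : List (St d)) (x : V d),
        cost c x w ≤ max 1 (c e / τ) * cost (Function.update c e τ) x w := by
      intro w
      induction w with
      | nil =>
        intro x
        show (0 : ℝ) ≤ _ * 0
        rw [mul_zero]
      | cons s w ih =>
        intro x
        show c (ed x s) + cost c (x + sv s) w ≤ _ * (Function.update c e τ (ed x s) +
          cost (Function.update c e τ) (x + sv s) w)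
        rw [mul_add]
        exact add_le_add (hM _) (ih _)
    refine (hc.fin x (max 1 (c e / τ) * R)).subset ?_
    intro w hw
    have hw' : cost (Function.update c e τ) x w ≤ R := hw
    show cost c x w ≤ _
    exact (hcost w x).trans (mul_le_mul_of_nonneg_left hw'
      (le_trans zero_le_one (le_max_left _ _)))

theorem ed_eq {v p : V d} {s' s : St d} (h : ed v s' = ed p s) :
    (v = p ∧ v + sv s' = p + sv s) ∨ (v = p + sv s ∧ v + sv s' = p) := by
  have h1 : s(v, v + sv s') = s(p, p + sv s) := congrArg Subtype.val h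
  rw [Sym2.eq_iff] at h1
  exact h1

/-- the metric after the change of the weight of the edge `ed p s` to `τ'` -/
theorem low {c : Edge d → ℝ} (hc : Ok c) (p : V d) (s : St d) {τ' : ℝ} (hτ' : 0 < τ')
    (u w : V d) :
    min (T c u w) (min (T c u p + τ' + T c (p + sv s) w) (T c u (p + sv s) + τ' + T c p w)) ≤
      T (Function.update c (ed p s) τ') u w := by
  have hc' := ok_update hc (ed p s) hτ'
  have key := pot hc' (fun v => min (T c u v) (min (T c u p + τ' + T c (p + sv s) v)
    (T c u (p + sv s) + τ' + T c p v))) ?_ u w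
  · refine key.trans ?_
    have h1 : min (T c u u) (min (T c u p + τ' + T c (p + sv s) u)
      (T c u (p + sv s) + τ' + T c p u)) ≤ 0 := (min_le_left _ _).trans (T_self_le hc u)
    linarith
  · intro v s'
    by_cases he : ed v s' = ed p s
    · rw [he, Function.update_self]
      rcases ed_eq he with ⟨h1, h2⟩ | ⟨h1, h2⟩
      · rw [h2, h1]
        have a1 := T_self_le hc (p + sv s)
        have a2 := T_nn hc (p + sv s) p
        have a3 := T_nn hc p p
        refine le_trans (b := min (T c u p + τ') (T c u (p + sv s))) ?_ ?_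
        · refine le_min ?_ (min_le_left _ _)
          exact (min_le_right _ _).trans ((min_le_left _ _).trans (by linarith))
        · rw [← min_add_add_right, ← min_add_add_right]
          refine le_min (min_le_left _ _) (le_min ?_ ?_)
          · exact (min_le_left _ _).trans (by linarith)
          · exact (min_le_right _ _).trans (by linarith)
      · rw [h2, h1]
        have a1 := T_self_le hc p
        have a2 := T_nn hc p (p + sv s)
        have a3 := T_nn hc (p + sv s) (p + sv s)
        refine le_trans (b := min (T c u (p + sv s) + τ') (T c u p)) ?_ ?_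
        · refine le_min ?_ (min_le_left _ _)
          exact (min_le_right _ _).trans ((min_le_right _ _).trans (by linarith))
        · rw [← min_add_add_right, ← min_add_add_right]
          refine le_min (min_le_left _ _) (le_min ?_ ?_)
          · exact (min_le_right _ _).trans (by linarith)
          · exact (min_le_left _ _).trans (by linarith)
    · rw [Function.update_of_ne he]
      have b1 : ∀ x, T c x (v + sv s') ≤ T c x v + c (ed v s') := fun x => by
        have := tri hc x v (v + sv s')
        have := T_ed hc v s'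
        linarith
      rw [← min_add_add_right, ← min_add_add_right]
      refine min_le_min (b1 u) (min_le_min ?_ ?_)
      · have := b1 (p + sv s)
        linarith
      · have := b1 p
        linarith

section

variable {c : Edge d → ℝ} {x y p : V d} {s : St d}

/-- raising the weight of one edge raises the metric -/
theorem up {c : Edge d → ℝ} (hc : Ok c) (e : Edge d) {τ' τ : ℝ} (h0 : 0 < τ') (h : τ' ≤ τ)
    (u w : V d) : T (Function.update c e τ') u w ≤ T (Function.update c e τ) u w := by
  refine T_mono (ok_update hc e (h0.trans_le h)) (ok_update hc e h0).ps ?_ u w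
  intro f
  by_cases hf : f = e
  · rw [hf, Function.update_self, Function.update_self]
    exact h
  · rw [Function.update_of_ne hf, Function.update_of_ne hf]

theorem lowU {c : Edge d → ℝ} (hc : Ok c) (p : V d) (s : St d) {τ τ' : ℝ} (hτ : 0 < τ)
    (hτ' : 0 < τ') (u w : V d) :
    min (T (Function.update c (ed p s) τ) u w)
      (min (T (Function.update c (ed p s) τ) u p + τ' +
          T (Function.update c (ed p s) τ) (p + sv s) w)
        (T (Function.update c (ed p s) τ) u (p + sv s) + τ' +
          T (Function.update c (ed p s) τ) p w)) ≤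
      T (Function.update c (ed p s) τ') u w := by
  have h := low (ok_update hc (ed p s) hτ) p s hτ' u w
  rw [Function.update_idem] at h
  exact h

/-- the data of `Xr` at the weight `τ` of the edge -/
structure Dat (c : Edge d → ℝ) (ε : ℝ) (x y p : V d) (s : St d) (τ : ℝ) (v z : V d) : Prop where
  a : T (Function.update c (ed p s) τ) x p + τ +
    T (Function.update c (ed p s) τ) (p + sv s) v + T (Function.update c (ed p s) τ) v z ≤
    T (Function.update c (ed p s) τ) x z
  b : dl (Function.update c (ed p s) τ) x y z ≤ dl (Function.update c (ed p s) τ) x y p + ε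
  c : dl (Function.update c (ed p s) τ) x y p < dl (Function.update c (ed p s) τ) x y v

variable {ε τ τ' : ℝ} {v z : V d}

theorem Dat.hd (hc : Ok c) (hτ : 0 < τ) (h : Dat c ε x y p s τ v z) :
    T (Function.update c (ed p s) τ) x p + τ +
      T (Function.update c (ed p s) τ) (p + sv s) v ≤ T (Function.update c (ed p s) τ) x v := by
  have := tri (ok_update hc (ed p s) hτ) x v z
  have := h.a
  linarith

theorem T_pq (hc : Ok c) (hτ : 0 < τ) (w : V d) :
    T (Function.update c (ed p s) τ) p w ≤
      τ + T (Function.update c (ed p s) τ) (p + sv s) w := by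
  have h1 := tri (ok_update hc (ed p s) hτ) p (p + sv s) w
  have h2 := T_ed (ok_update hc (ed p s) hτ) p s
  rw [Function.update_self] at h2
  linarith

theorem Dat.hf (hc : Ok c) (hτ : 0 < τ) (h : Dat c ε x y p s τ v z) :
    T (Function.update c (ed p s) τ) (p + sv s) v + T (Function.update c (ed p s) τ) v z ≤
      T (Function.update c (ed p s) τ) (p + sv s) z := by
  have h1 := tri (ok_update hc (ed p s) hτ) x p z
  have h2 := T_pq (p := p) (s := s) hc hτ z
  have := h.a
  linarith

theorem Dat.he (hc : Ok c) (hτ : 0 < τ) (h : Dat c ε x y p s τ v z) :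
    τ + T (Function.update c (ed p s) τ) (p + sv s) z ≤ T (Function.update c (ed p s) τ) p z := by
  have h1 := tri (ok_update hc (ed p s) hτ) x p z
  have h2 := tri (ok_update hc (ed p s) hτ) (p + sv s) v z
  have := h.a
  linarith

theorem Dat.hk (hc : Ok c) (hτ : 0 < τ) (h : Dat c ε x y p s τ v z) :
    τ + T (Function.update c (ed p s) τ) (p + sv s) v ≤ T (Function.update c (ed p s) τ) p v := by
  have h1 := tri (ok_update hc (ed p s) hτ) x p v
  have := h.hd hc hτ
  linarith

theorem Dat.hg (hc : Ok c) (hτ : 0 < τ) (h : Dat c ε x y p s τ v z) :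
    T (Function.update c (ed p s) τ) y v < T (Function.update c (ed p s) τ) y p + τ +
      T (Function.update c (ed p s) τ) (p + sv s) v := by
  have h1 := tri (ok_update hc (ed p s) hτ) x p v
  have h2 := T_pq (p := p) (s := s) hc hτ v
  have h3 := h.c
  unfold dl at h3
  linarith

theorem Dat.hi (hc : Ok c) (h' : 0 < τ') (hτ : τ' ≤ τ) (h : Dat c ε x y p s τ v z) :
    T (Function.update c (ed p s) τ') (p + sv s) z =
      T (Function.update c (ed p s) τ) (p + sv s) z := by
  refine le_antisymm (up hc _ h' hτ _ _) (le_trans ?_ (lowU hc p s (h'.trans_le hτ) h' _ _))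
  have h1 := h.he hc (h'.trans_le hτ)
  have h2 := T_nn (ok_update hc (ed p s) (h'.trans_le hτ)) (p + sv s) p
  have h3 := T_nn (ok_update hc (ed p s) (h'.trans_le hτ)) (p + sv s) (p + sv s)
  refine le_min le_rfl (le_min ?_ ?_) <;> linarith

/-- the slice step -/
theorem Dat.hh (hc : Ok c) (h' : 0 < τ') (hτ : τ' ≤ τ - ε) (hε : 0 < ε)
    (h : Dat c ε x y p s τ v z) :
    T (Function.update c (ed p s) τ') y p + τ' + T (Function.update c (ed p s) τ') (p + sv s) z ≤
      T (Function.update c (ed p s) τ') y z := by
  have hle : τ' ≤ τ := by linarith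
  have hτ0 : 0 < τ := h'.trans_le hle
  refine le_trans ?_ (lowU hc p s hτ0 h' _ _)
  have h1 := up hc (ed p s) h' hle y p
  have h2 := up hc (ed p s) h' hle (p + sv s) z
  have h3 := h.a
  have h4 := h.b
  have h5 := tri (ok_update hc (ed p s) hτ0) (p + sv s) v z
  have h6 := h.he hc hτ0
  have h7 : T (Function.update c (ed p s) τ) y p ≤
      T (Function.update c (ed p s) τ) y (p + sv s) + τ := by
    have a1 := tri (ok_update hc (ed p s) hτ0) y (p + sv s) p
    have a2 := T_ed (ok_update hc (ed p s) hτ0) p s
    rw [Function.update_self, Pool.Agent.Helper79.GQ.T_symm] at a2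
    linarith
  unfold dl at h4
  refine le_min ?_ (le_min ?_ ?_) <;> linarith

end

/-- `j` later than `i`: the walks of `j` do not pass the point `v` of `i` (at the weight `τ₀`) -/
theorem strict {c : Edge d → ℝ} {x y p : V d} {s : St d} {ε τ₀ τi τj : ℝ} {v v' z' z : V d}
    (hc : Ok c) (hε : 0 < ε) (h₀ : 0 < τ₀) (hi : τ₀ ≤ τi) (hij : τi + ε ≤ τj)
    (di : Dat c ε x y p s τi v z') (dj : Dat c ε x y p s τj v' z) :
    T (Function.update c (ed p s) τ₀) (p + sv s) z <
      T (Function.update c (ed p s) τ₀) (p + sv s) v +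
        T (Function.update c (ed p s) τ₀) v z := by
  have hτi : 0 < τi := h₀.trans_le hi
  have hτj : 0 < τj := by linarith
  have oi := ok_update hc (ed p s) hτi
  -- the slice step at `τi`
  have s1 := dj.hh hc hτi (by linarith) hε
  have s2 : τi + T (Function.update c (ed p s) τi) (p + sv s) z ≤
      T (Function.update c (ed p s) τi) p z := by
    have := tri oi y p z
    linarith
  have s3 := di.hk hc hτi
  have s4 := di.hg hc hτi
  have e1 : T (Function.update c (ed p s) τi) (p + sv s) v ≤
      T (Function.update c (ed p s) τ₀) (p + sv s) v := by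
    refine le_trans ?_ (lowU hc p s hτi h₀ _ _)
    have h2 := T_nn oi (p + sv s) p
    have h3 := T_nn oi (p + sv s) (p + sv s)
    refine le_min le_rfl (le_min ?_ ?_) <;> linarith
  have e2 : T (Function.update c (ed p s) τi) v z ≤
      T (Function.update c (ed p s) τ₀) v z := by
    refine le_trans ?_ (lowU hc p s hτi h₀ _ _)
    have h2 := tri oi v (p + sv s) z
    have h3 : T (Function.update c (ed p s) τi) v p = T (Function.update c (ed p s) τi) p v :=
      Pool.Agent.Helper79.GQ.T_symm _ _ _
    have h4 : T (Function.update c (ed p s) τi) v (p + sv s) =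
      T (Function.update c (ed p s) τi) (p + sv s) v := Pool.Agent.Helper79.GQ.T_symm _ _ _
    refine le_min le_rfl (le_min ?_ ?_) <;> linarith
  have e3 : T (Function.update c (ed p s) τ₀) (p + sv s) z ≤
      T (Function.update c (ed p s) τi) (p + sv s) z := up hc _ h₀ hi _ _
  have h5 := tri oi y v z
  linarith

theorem sep {c : Edge d → ℝ} (hc : Ok c) (x y p : V d) (s : St d) (β ε : ℝ) (hε : 0 < ε)
    (hβ : 2 * ε < β) (K : ℕ) :
    ¬ ∃ t : Fin (K + 1) → ℝ, (∀ i j, i < j → t i + ε < t j) ∧
      ∀ i, Af β ε K x y p s (Function.update c (ed p s) (t i)) := by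
  rintro ⟨t, ht, hA⟩
  have tβ : ∀ i, β ≤ t i := fun i => by
    have := (hA i).1
    rwa [Function.update_self] at this
  have tpos : ∀ i, 0 < t i := fun i => by linarith [tβ i]
  have h0 : ∀ i, t 0 ≤ t i := fun i => by
    rcases eq_or_ne i 0 with rfl | hi
    · exact le_rfl
    · have := ht 0 i (Fin.pos_of_ne_zero hi)
      linarith
  have hX : ∀ i, ∃ v, ∀ R : ℕ, ∃ z, (R : ℝ) ≤ n1 z ∧ Dat c ε x y p s (t i) v z := by
    intro i
    obtain ⟨v, hv, hz⟩ := (hA i).2.2
    refine ⟨v, fun R => ?_⟩
    obtain ⟨z, hR, h1, h2⟩ := hz R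
    rw [Function.update_self] at h1
    exact ⟨z, hR, h1, h2, hv⟩
  choose v z hz hD using hX
  have oc := ok_update hc (ed p s) (tpos 0)
  obtain ⟨w₀, hw₀, cw₀⟩ := min_of oc y p
  have hwv := fun i => min_of oc (p + sv s) (v i)
  choose wv hwv cwv using hwv
  have hwz := fun i R => min_of oc (v i) (z i R)
  choose wz hwz cwz using hwz
  -- the walks
  have hpos : ∀ i R, pos y (w₀ ++ s :: (wv i ++ wz i R)) = z i R := by
    intro i R
    rw [pos_append, hw₀]
    show pos (p + sv s) (wv i ++ wz i R) = _
    rw [pos_append, hwv, hwz]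
  have hcost : ∀ i R, cost (Function.update c (ed p s) (t 0)) y (w₀ ++ s :: (wv i ++ wz i R)) =
      T (Function.update c (ed p s) (t 0)) y p + (t 0 +
        (T (Function.update c (ed p s) (t 0)) (p + sv s) (v i) +
          T (Function.update c (ed p s) (t 0)) (v i) (z i R))) := by
    intro i R
    rw [cost_append, hw₀, cw₀]
    show _ + (Function.update c (ed p s) (t 0) (ed p s) +
      cost (Function.update c (ed p s) (t 0)) (p + sv s) (wv i ++ wz i R)) = _
    rw [Function.update_self, cost_append, cwv, hwv, cwz]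
  have hle : ∀ i R, 0 < i →
      cost (Function.update c (ed p s) (t 0)) y (w₀ ++ s :: (wv i ++ wz i R)) ≤
        T (Function.update c (ed p s) (t 0)) y (z i R) := by
    intro i R hi
    rw [hcost]
    have h1 := (hD i R).hh hc (tpos 0) (by linarith [ht 0 i hi]) hε
    have h2 := (hD i R).hf hc (tpos i)
    have h3 := (hD i R).hi hc (tpos 0) (h0 i)
    have h4 := up hc (ed p s) (tpos 0) (h0 i) (p + sv s) (v i)
    have h5 := up hc (ed p s) (tpos 0) (h0 i) (v i) (z i R)
    linarith
  have hgeo : ∀ i R, 0 < i →
      Geo (Function.update c (ed p s) (t 0)) y (w₀ ++ s :: (wv i ++ wz i R)) := by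
    intro i R hi w' hw'
    rw [hpos] at hw'
    exact (hle i R hi).trans (T_le_of oc.ps hw')
  -- the length of the common initial part
  obtain ⟨m, hm⟩ : ∃ m : ℕ, ∀ i, (w₀ ++ s :: wv i).length ≤ m :=
    ⟨Finset.univ.sup fun i => (w₀ ++ s :: wv i).length,
      fun i => Finset.le_sup (f := fun i => (w₀ ++ s :: wv i).length) (Finset.mem_univ i)⟩
  obtain ⟨n, hn⟩ := (hA 0).2.1 m
  obtain ⟨R, hR⟩ := exists_nat_ge ((n : ℝ) + n1 y)
  refine hn (fun i => w₀ ++ s :: (wv i.succ ++ wz i.succ R)) ?_ ?_
  · intro i
    refine ⟨?_, hgeo _ R (Fin.succ_pos i)⟩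
    have h1 := n1_pos_sub_le y (w₀ ++ s :: (wv i.succ ++ wz i.succ R))
    rw [hpos] at h1
    have h2 : n1 (z i.succ R) ≤ n1 (z i.succ R - y) + n1 y := by
      have := n1_add_le (z i.succ R - y) y
      rwa [sub_add_cancel] at this
    have h3 := hz i.succ R
    have h4 : (n : ℝ) ≤ ((w₀ ++ s :: (wv i.succ ++ wz i.succ R)).length : ℝ) := by linarith
    exact_mod_cast h4
  · -- different initial parts
    have key : ∀ i j : Fin (K + 1), 0 < i → i < j →
        (w₀ ++ s :: (wv i ++ wz i R)).take m ≠ (w₀ ++ s :: (wv j ++ wz j R)).take m := by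
      intro i j hi hij he
      have e1 : (w₀ ++ s :: wv i) <+: (w₀ ++ s :: (wv j ++ wz j R)) := by
        have a1 : (w₀ ++ s :: wv i) <+: (w₀ ++ s :: (wv i ++ wz i R)) := by
          refine ⟨wz i R, ?_⟩
          rw [List.append_assoc, List.cons_append]
        have a2 : (w₀ ++ s :: wv i) <+: (w₀ ++ s :: (wv i ++ wz i R)).take m :=
          List.prefix_take_iff.2 ⟨a1, hm i⟩
        rw [he] at a2
        exact a2.trans (List.take_prefix _ _)
      obtain ⟨r, hr⟩ := e1
      rw [List.append_assoc, List.cons_append, List.append_cancel_left_eq,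
        List.cons_inj_right] at hr
      have b1 := congrArg (cost (Function.update c (ed p s) (t 0)) (p + sv s)) hr
      rw [cost_append, cost_append, hwv, hwv, cwv, cwv, cwz] at b1
      have b2 : pos (v i) r = z j R := by
        have := congrArg (pos (p + sv s)) hr
        rwa [pos_append, pos_append, hwv, hwv, hwz] at this
      have b3 := T_le_of oc.ps b2
      have b4 := hle j R (hi.trans hij)
      rw [hcost] at b4
      have b5 := strict hc hε (tpos 0) (h0 i) (ht i j hij).le (hD i R) (hD j R)
      have b6 := tri oc y (p + sv s) (z j R)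
      have b7 : T (Function.update c (ed p s) (t 0)) y (p + sv s) ≤
          T (Function.update c (ed p s) (t 0)) y p + t 0 := by
        have a1 := tri oc y p (p + sv s)
        have a2 := T_ed oc p s
        rw [Function.update_self] at a2
        linarith
      have b8 := tri oc y p (z j R)
      have b9 := T_pq (p := p) (s := s) hc (tpos 0) (z j R)
      linarith
    intro i j hij
    by_contra hne
    have hij' : (w₀ ++ s :: (wv i.succ ++ wz i.succ R)).take m =
      (w₀ ++ s :: (wv j.succ ++ wz j.succ R)).take m := hij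
    rcases lt_or_gt_of_ne hne with h | h
    · exact key _ _ (Fin.succ_pos i) (Fin.succ_lt_succ_iff.2 h) hij'
    · exact key _ _ (Fin.succ_pos j) (Fin.succ_lt_succ_iff.2 h) hij'.symm

end Pool.Agent.Helper82.JT
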