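import Mathlib

/-!
# JT (MP_13b103_pr): short intervals are small, covering of a set without separated points
-/

set_option autoImplicit false

namespace Pool.Agent.Helper82.JT

open MeasureTheory

/-- short intervals have small mass if there are no atoms -/
theorem small_int (ν : Measure ℝ) [IsProbabilityMeasure ν] (h : ∀ t, ν {t} = 0) (δ : ENNReal)
    (hδ : 0 < δ) : ∃ ε : ℝ, 0 < ε ∧ ∀ t, ν (Set.Icc (t - ε) (t + ε)) ≤ δ := by
  obtain ⟨K, -, hK, hKδ⟩ := MeasurableSet.univ.exists_isCompact_sdiff_lt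
    (measure_ne_top ν _) hδ.ne'
  have hU : ∀ x : ℝ, ∃ U : Set ℝ, {x} ⊆ U ∧ IsOpen U ∧ ν U < δ := fun x => by
    obtain ⟨U, h1, h2, h3⟩ := Set.exists_isOpen_lt_of_lt ({x} : Set ℝ) δ (by rw [h x]; exact hδ)
    exact ⟨U, h1, h2, h3⟩
  choose U hxU hUo hUδ using hU
  obtain ⟨ε, hε, hb⟩ := lebesgue_number_lemma_of_metric (hK.cthickening (r := 1)) hUo
    (fun x _ => Set.mem_iUnion.2 ⟨x, hxU x rfl⟩)
  refine ⟨min 1 (ε / 2), lt_min one_pos (half_pos hε), fun t => ?_⟩
  by_cases ht : t ∈ Metric.cthickening 1 K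
  · obtain ⟨x, hx⟩ := hb t ht
    refine le_trans (measure_mono (fun z hz => hx ?_)) (hUδ x).le
    rw [Metric.mem_ball, Real.dist_eq, abs_lt]
    have h1 : min 1 (ε / 2) ≤ ε / 2 := min_le_right _ _
    constructor <;> linarith [hz.1, hz.2]
  · refine le_trans (measure_mono (fun z hz => ?_)) hKδ.le
    refine ⟨trivial, fun hzK => ht ?_⟩
    refine Metric.mem_cthickening_of_dist_le t z 1 K hzK ?_
    rw [Real.dist_eq, abs_le]
    have h1 : min 1 (ε / 2) ≤ 1 := min_le_left _ _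
    constructor <;> linarith [hz.1, hz.2]

/-- a set without `K + 1` points with gaps `> ε` is covered by `K` intervals -/
theorem cover (S : Set ℝ) (ε : ℝ) (hε : 0 < ε) (K : ℕ)
    (h : ¬ ∃ t : Fin (K + 1) → ℝ, (∀ i j, i < j → t i + ε < t j) ∧ ∀ i, t i ∈ S) :
    ∃ F : Finset ℝ, F.card ≤ K ∧ S ⊆ ⋃ s ∈ F, Set.Icc (s - ε) (s + ε) := by
  classical
  by_contra hcon
  have key : ∀ n : ℕ, n ≤ K + 1 → ∃ F : Finset ℝ, F.card = n ∧ (∀ s ∈ F, s ∈ S) ∧
      ∀ a ∈ F, ∀ b ∈ F, a < b → a + ε < b := by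
    intro n
    induction n with
    | zero => exact fun _ => ⟨∅, rfl, by simp, by simp⟩
    | succ n ih =>
      intro hn
      obtain ⟨F, hF, hFS, hsep⟩ := ih (by omega)
      have h1 : ¬ S ⊆ ⋃ s ∈ F, Set.Icc (s - ε) (s + ε) := fun h2 => hcon ⟨F, by omega, h2⟩
      obtain ⟨s, hsS, hs⟩ := Set.not_subset.1 h1
      have h2 : ∀ a ∈ F, s ∉ Set.Icc (a - ε) (a + ε) := fun a ha hsa =>
        hs (Set.mem_iUnion₂.2 ⟨a, ha, hsa⟩)
      have hsF : s ∉ F := fun hsF => h2 s hsF ⟨by linarith, by linarith⟩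
      refine ⟨insert s F, by rw [Finset.card_insert_of_notMem hsF, hF], ?_, ?_⟩
      · intro a ha
        rcases Finset.mem_insert.1 ha with rfl | ha
        · exact hsS
        · exact hFS a ha
      · intro a ha b hb hab
        rcases Finset.mem_insert.1 ha with ha | ha <;> rcases Finset.mem_insert.1 hb with hb | hb
        · rw [ha, hb] at hab
          exact absurd hab (lt_irrefl _)
        · rw [ha] at hab ⊢
          by_contra hc
          exact h2 b hb ⟨by linarith, by linarith⟩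
        · rw [hb] at hab ⊢
          by_contra hc
          exact h2 a ha ⟨by linarith, by linarith⟩
        · exact hsep a ha b hb hab
  obtain ⟨F, hF, hFS, hsep⟩ := key (K + 1) le_rfl
  refine h ⟨fun i => F.orderEmbOfFin hF i, fun i j hij => ?_, fun i => ?_⟩
  · exact hsep _ (F.orderEmbOfFin_mem hF i) _ (F.orderEmbOfFin_mem hF j)
      ((F.orderEmbOfFin hF).lt_iff_lt.2 hij)
  · exact hFS _ (F.orderEmbOfFin_mem hF i)

end Pool.Agent.Helper82.JT
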